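import Pool.Agent.H48.CMS.Points

/-! Lengths in families. -/

namespace Pool.Agent.H48.CMS

open MvPolynomial Pool.Agent.H6.CMT
open scoped TensorProduct

variable {n : ℕ}

/-- the extension of an ideal of `R[x]` to `F[x]` -/
noncomputable def ext {R F : Type*} [CommRing R] [CommRing F] (ι : R →+* F)
    (L : Ideal (MvPolynomial (Fin n) R)) : Ideal (MvPolynomial (Fin n) F) :=
  L.map (MvPolynomial.map ι)

theorem ext_mul {R F : Type*} [CommRing R] [CommRing F] (ι : R →+* F)
    (L L' : Ideal (MvPolynomial (Fin n) R)) : ext ι (L * L') = ext ι L * ext ι L' :=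
  Ideal.map_mul _ _ _

theorem ext_sup {R F : Type*} [CommRing R] [CommRing F] (ι : R →+* F)
    (L L' : Ideal (MvPolynomial (Fin n) R)) : ext ι (L ⊔ L') = ext ι L ⊔ ext ι L' :=
  Ideal.map_sup _ _ _

/-- spanning sets extend -/
theorem span_ext {R F : Type*} [CommRing R] [Field F] (ι : R →+* F)
    (L : Ideal (MvPolynomial (Fin n) R)) {d : ℕ} (B : Fin d → MvPolynomial (Fin n) R)
    (hB : ∀ f : MvPolynomial (Fin n) R, ∃ c : Fin d → R, f - ∑ i, C (c i) * B i ∈ L) :
    Submodule.span F (Set.range fun i => (Submodule.Quotient.mk (MvPolynomial.map ι (B i)) :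
      MvPolynomial (Fin n) F ⧸ ext ι L)) = ⊤ := by
  rw [eq_top_iff]
  intro z _
  obtain ⟨f, rfl⟩ := Submodule.Quotient.mk_surjective _ z
  induction f using MvPolynomial.induction_on' with
  | monomial s a =>
    obtain ⟨c, hc⟩ := hB (monomial s 1)
    have h1 : (Submodule.Quotient.mk (monomial s (1 : F)) : MvPolynomial (Fin n) F ⧸ ext ι L) =
        ∑ i, ι (c i) • (Submodule.Quotient.mk (MvPolynomial.map ι (B i)) :
          MvPolynomial (Fin n) F ⧸ ext ι L) := by
      have h2 : MvPolynomial.map ι (monomial s 1 - ∑ i, C (c i) * B i) ∈ ext ι L :=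
        Ideal.mem_map_of_mem _ hc
      rw [map_sub, map_monomial, map_one, map_sum] at h2
      have h3 := (Submodule.Quotient.eq (ext ι L)).2 h2
      rw [h3, ← Submodule.mkQ_apply, map_sum]
      refine Finset.sum_congr rfl fun i _ => ?_
      rw [map_mul, map_C, Submodule.mkQ_apply, ← MvPolynomial.smul_eq_C_mul]
      rfl
    have h4 : (Submodule.Quotient.mk (monomial s a) : MvPolynomial (Fin n) F ⧸ ext ι L) =
        a • (Submodule.Quotient.mk (monomial s (1 : F)) : MvPolynomial (Fin n) F ⧸ ext ι L) := by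
      have : (monomial s a : MvPolynomial (Fin n) F) = a • monomial s 1 := by
        rw [smul_monomial, smul_eq_mul, mul_one]
      rw [this]
      rfl
    rw [h4, h1]
    exact Submodule.smul_mem _ _ (Submodule.sum_mem _ fun i _ =>
      Submodule.smul_mem _ _ (Submodule.subset_span ⟨i, rfl⟩))
  | add f g hf hg =>
    rw [Submodule.Quotient.mk_add]
    exact add_mem (hf trivial) (hg trivial)

theorem finite_ext {R F : Type*} [CommRing R] [Field F] (ι : R →+* F)
    (L : Ideal (MvPolynomial (Fin n) R)) {d : ℕ} (B : Fin d → MvPolynomial (Fin n) R)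
    (hB : ∀ f : MvPolynomial (Fin n) R, ∃ c : Fin d → R, f - ∑ i, C (c i) * B i ∈ L) :
    Module.Finite F (MvPolynomial (Fin n) F ⧸ ext ι L) := by
  have h := span_ext ι L B hB
  exact ⟨Submodule.fg_def.2 ⟨_, Set.finite_range _, h⟩⟩

theorem finrank_ext_le {R F : Type*} [CommRing R] [Field F] (ι : R →+* F)
    (L : Ideal (MvPolynomial (Fin n) R)) {d : ℕ} (B : Fin d → MvPolynomial (Fin n) R)
    (hB : ∀ f : MvPolynomial (Fin n) R, ∃ c : Fin d → R, f - ∑ i, C (c i) * B i ∈ L) :
    Module.finrank F (MvPolynomial (Fin n) F ⧸ ext ι L) ≤ d := by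
  have h := span_ext ι L B hB
  have h1 := finrank_range_le_card (R := F) (fun i => (Submodule.Quotient.mk
    (MvPolynomial.map ι (B i)) : MvPolynomial (Fin n) F ⧸ ext ι L))
  rwa [Set.finrank, h, finrank_top, Fintype.card_fin] at h1

/-- a free quotient: spanning elements -/
theorem exists_span_free {R : Type*} [CommRing R] [Nontrivial R]
    (L : Ideal (MvPolynomial (Fin n) R)) [Module.Free R (MvPolynomial (Fin n) R ⧸ L)]
    [Module.Finite R (MvPolynomial (Fin n) R ⧸ L)] :
    ∃ B : Fin (Module.finrank R (MvPolynomial (Fin n) R ⧸ L)) → MvPolynomial (Fin n) R,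
      ∀ f : MvPolynomial (Fin n) R, ∃ c : Fin (Module.finrank R (MvPolynomial (Fin n) R ⧸ L)) → R,
        f - ∑ i, C (c i) * B i ∈ L := by
  let b := Module.finBasis R (MvPolynomial (Fin n) R ⧸ L)
  have hlift := fun i => Submodule.Quotient.mk_surjective L (b i)
  choose B hB using hlift
  refine ⟨B, fun f => ?_⟩
  refine ⟨fun i => b.repr (Submodule.Quotient.mk f) i, ?_⟩
  have h := b.sum_repr (Submodule.Quotient.mk f)
  rw [← Submodule.Quotient.eq, eq_comm]
  refine Eq.trans ?_ h
  have h2 : ∀ c : Fin (Module.finrank R (MvPolynomial (Fin n) R ⧸ L)) → R,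
      (Submodule.Quotient.mk (∑ i, C (c i) * B i) : MvPolynomial (Fin n) R ⧸ L) =
        ∑ i, c i • b i := by
    intro c
    rw [← Submodule.mkQ_apply, map_sum]
    refine Finset.sum_congr rfl fun i _ => ?_
    rw [Submodule.mkQ_apply, ← MvPolynomial.smul_eq_C_mul, ← hB i]
    rfl
  exact h2 _

/-- dimension of the fibres of a free family -/
theorem finrank_ext_free {R F : Type*} [CommRing R] [Nontrivial R] [Field F] (ι : R →+* F)
    (L : Ideal (MvPolynomial (Fin n) R)) [Module.Free R (MvPolynomial (Fin n) R ⧸ L)]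
    [Module.Finite R (MvPolynomial (Fin n) R ⧸ L)] :
    Module.finrank F (MvPolynomial (Fin n) F ⧸ ext ι L) =
      Module.finrank R (MvPolynomial (Fin n) R ⧸ L) := by
  obtain ⟨B, hB⟩ := exists_span_free L
  apply le_antisymm (finrank_ext_le ι L B hB)
  let _ : Algebra R F := ι.toAlgebra
  have hfin := finite_ext ι L B hB
  let ev : MvPolynomial (Fin n) F →ₐ[F] (F ⊗[R] (MvPolynomial (Fin n) R ⧸ L)) :=
    aeval (fun i => (1 : F) ⊗ₜ[R] (Ideal.Quotient.mk L (X i)))
  have hev : ∀ f : MvPolynomial (Fin n) R, ev (MvPolynomial.map ι f) =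
      (1 : F) ⊗ₜ[R] (Ideal.Quotient.mk L f) := by
    intro f
    induction f using MvPolynomial.induction_on with
    | C a =>
      rw [map_C]
      change ev (algebraMap F _ (ι a)) = _
      rw [AlgHom.commutes, Algebra.TensorProduct.algebraMap_apply]
      change (ι a) ⊗ₜ[R] (1 : MvPolynomial (Fin n) R ⧸ L) = 1 ⊗ₜ[R] (algebraMap R
        (MvPolynomial (Fin n) R ⧸ L) a)
      rw [Algebra.algebraMap_eq_smul_one a, TensorProduct.tmul_smul, TensorProduct.smul_tmul']
      congr 1
      rw [Algebra.smul_def, mul_one]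
      rfl
    | add f g hf hg => rw [map_add, map_add, hf, hg, map_add, TensorProduct.tmul_add]
    | mul_X f i hf =>
      rw [map_mul, map_mul, hf, map_X, map_mul]
      have : ev (X i) = (1 : F) ⊗ₜ[R] (Ideal.Quotient.mk L (X i)) := aeval_X _ _
      rw [this, Algebra.TensorProduct.tmul_mul_tmul, one_mul]
  let Φ : (MvPolynomial (Fin n) F ⧸ ext ι L) →ₗ[F] (F ⊗[R] (MvPolynomial (Fin n) R ⧸ L)) :=
    (Submodule.restrictScalars F (ext ι L)).liftQ ev.toLinearMap (by
      intro f hf
      rw [LinearMap.mem_ker]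
      change ev f = 0
      have h1 : ext ι L ≤ RingHom.ker ev := by
        unfold ext
        rw [Ideal.map_le_iff_le_comap]
        intro g hg
        rw [Ideal.mem_comap, RingHom.mem_ker, hev, Ideal.Quotient.eq_zero_iff_mem.2 hg,
          TensorProduct.tmul_zero]
      exact h1 hf)
  have hΦ : Function.Surjective Φ := by
    intro z
    induction z using TensorProduct.induction_on with
    | zero => exact ⟨0, map_zero _⟩
    | tmul a y =>
      obtain ⟨f, rfl⟩ := Ideal.Quotient.mk_surjective y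
      refine ⟨Submodule.Quotient.mk (a • MvPolynomial.map ι f), ?_⟩
      change ev (a • MvPolynomial.map ι f) = _
      rw [map_smul, hev, TensorProduct.smul_tmul', smul_eq_mul, mul_one]
    | add a b ha hb =>
      obtain ⟨x, hx⟩ := ha
      obtain ⟨y, hy⟩ := hb
      exact ⟨x + y, by rw [map_add, hx, hy]⟩
  have h1 := LinearMap.finrank_le_finrank_of_surjective hΦ
  rwa [Module.finrank_baseChange] at h1

theorem exists_span_finite {R : Type*} [CommRing R]
    (L : Ideal (MvPolynomial (Fin n) R)) [Module.Finite R (MvPolynomial (Fin n) R ⧸ L)] :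
    ∃ (d : ℕ) (B : Fin d → MvPolynomial (Fin n) R),
      ∀ f : MvPolynomial (Fin n) R, ∃ c : Fin d → R, f - ∑ i, C (c i) * B i ∈ L := by
  obtain ⟨d, s, hs⟩ := Module.Finite.exists_fin (R := R) (M := MvPolynomial (Fin n) R ⧸ L)
  have hlift := fun i => Submodule.Quotient.mk_surjective L (s i)
  choose B hB using hlift
  refine ⟨d, B, fun f => ?_⟩
  have h1 : (Submodule.Quotient.mk f : MvPolynomial (Fin n) R ⧸ L) ∈
      Submodule.span R (Set.range s) := by rw [hs]; trivial
  obtain ⟨c, hc⟩ := (Submodule.mem_span_range_iff_exists_fun _).1 h1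
  refine ⟨c, ?_⟩
  rw [← Submodule.Quotient.eq, ← hc, ← Submodule.mkQ_apply, map_sum]
  refine Finset.sum_congr rfl fun i _ => ?_
  rw [Submodule.mkQ_apply, ← MvPolynomial.smul_eq_C_mul, ← hB i]
  rfl

/-- semicontinuity: the fibre over the residue field is at least as large as any other fibre -/
theorem finrank_ext_mono {R κ F : Type*} [CommRing R] [IsLocalRing R] [Field κ] [Field F]
    (π : R →+* κ) (hπ : Function.Surjective π) (ι : R →+* F)
    (L : Ideal (MvPolynomial (Fin n) R)) [Module.Finite R (MvPolynomial (Fin n) R ⧸ L)] :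
    Module.finrank F (MvPolynomial (Fin n) F ⧸ ext ι L) ≤
      Module.finrank κ (MvPolynomial (Fin n) κ ⧸ ext π L) := by
  obtain ⟨d0, B0, hB0⟩ := exists_span_finite L
  have hfin := finite_ext π L B0 hB0
  let b := Module.finBasis κ (MvPolynomial (Fin n) κ ⧸ ext π L)
  have hmap : Function.Surjective (MvPolynomial.map (σ := Fin n) π) :=
    MvPolynomial.map_surjective π hπ
  have hlift : ∀ i, ∃ B : MvPolynomial (Fin n) R,
      (Submodule.Quotient.mk (MvPolynomial.map π B) : MvPolynomial (Fin n) κ ⧸ ext π L) = b i := by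
    intro i
    obtain ⟨y, hy⟩ := Submodule.Quotient.mk_surjective _ (b i)
    obtain ⟨z, hz⟩ := hmap y
    exact ⟨z, by rw [hz, hy]⟩
  choose B hB using hlift
  refine finrank_ext_le ι L B ?_
  let P : Submodule R (MvPolynomial (Fin n) R ⧸ L) :=
    Submodule.span R (Set.range fun i => (Submodule.Quotient.mk (B i) :
      MvPolynomial (Fin n) R ⧸ L))
  have hker : ∀ g ∈ Ideal.map (C : R →+* MvPolynomial (Fin n) R) (RingHom.ker π),
      (Submodule.Quotient.mk g : MvPolynomial (Fin n) R ⧸ L) ∈
        (RingHom.ker π) • (⊤ : Submodule R (MvPolynomial (Fin n) R ⧸ L)) := by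
    intro g hg
    refine Submodule.span_induction ?_ ?_ ?_ ?_ hg
    · rintro _ ⟨r, hr, rfl⟩
      have : (Submodule.Quotient.mk (C r) : MvPolynomial (Fin n) R ⧸ L) =
          r • (Submodule.Quotient.mk 1 : MvPolynomial (Fin n) R ⧸ L) := by
        rw [← mul_one (C r), ← MvPolynomial.smul_eq_C_mul]
        rfl
      rw [this]
      exact Submodule.smul_mem_smul hr trivial
    · exact Submodule.zero_mem _
    · intro x y _ _ hx hy
      rw [Submodule.Quotient.mk_add]
      exact add_mem hx hy
    · intro a x _ hx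
      have h1 : (Submodule.Quotient.mk (a • x) : MvPolynomial (Fin n) R ⧸ L) =
          (LinearMap.lsmul (MvPolynomial (Fin n) R) (MvPolynomial (Fin n) R ⧸ L) a).restrictScalars R
            (Submodule.Quotient.mk x) := rfl
      rw [h1]
      have h2 := Submodule.mem_map_of_mem (f := (LinearMap.lsmul (MvPolynomial (Fin n) R)
        (MvPolynomial (Fin n) R ⧸ L) a).restrictScalars R) hx
      rw [Submodule.map_smul''] at h2
      exact Submodule.smul_mono le_rfl le_top h2
  have hkey : (⊤ : Submodule R (MvPolynomial (Fin n) R ⧸ L)) ≤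
      P ⊔ (RingHom.ker π) • (⊤ : Submodule R (MvPolynomial (Fin n) R ⧸ L)) := by
    intro z _
    obtain ⟨f, rfl⟩ := Submodule.Quotient.mk_surjective _ z
    let r : Fin (Module.finrank κ (MvPolynomial (Fin n) κ ⧸ ext π L)) → R :=
      fun i => (hπ (b.repr (Submodule.Quotient.mk (MvPolynomial.map π f)) i)).choose
    have hr : ∀ i, π (r i) = b.repr (Submodule.Quotient.mk (MvPolynomial.map π f)) i :=
      fun i => (hπ (b.repr (Submodule.Quotient.mk (MvPolynomial.map π f)) i)).choose_spec
    have h1 : MvPolynomial.map π (f - ∑ i, C (r i) * B i) ∈ ext π L := by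
      rw [map_sub, ← Submodule.Quotient.eq, map_sum]
      have h := b.sum_repr (Submodule.Quotient.mk (MvPolynomial.map π f))
      rw [eq_comm]
      refine Eq.trans ?_ h
      rw [← Submodule.mkQ_apply, map_sum]
      refine Finset.sum_congr rfl fun i _ => ?_
      rw [Submodule.mkQ_apply, map_mul, map_C, ← MvPolynomial.smul_eq_C_mul, hr, ← hB i]
      rfl
    obtain ⟨a, ha, hab⟩ := (Ideal.mem_map_iff_of_surjective _ hmap).1 h1
    have h2 : f - ∑ i, C (r i) * B i - a ∈ Ideal.map (C : R →+* MvPolynomial (Fin n) R)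
        (RingHom.ker π) := by
      rw [← MvPolynomial.ker_map, RingHom.mem_ker, map_sub, hab, sub_self]
    have h3 := hker _ h2
    have h4 : (Submodule.Quotient.mk f : MvPolynomial (Fin n) R ⧸ L) =
        (∑ i, r i • (Submodule.Quotient.mk (B i) : MvPolynomial (Fin n) R ⧸ L)) +
          Submodule.Quotient.mk (f - ∑ i, C (r i) * B i - a) := by
      have h5 : (∑ i, r i • (Submodule.Quotient.mk (B i) : MvPolynomial (Fin n) R ⧸ L)) =
          Submodule.Quotient.mk (∑ i, C (r i) * B i) := by
        rw [← Submodule.mkQ_apply L (∑ i, C (r i) * B i), map_sum]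
        refine Finset.sum_congr rfl fun i _ => ?_
        rw [Submodule.mkQ_apply, ← MvPolynomial.smul_eq_C_mul]
        rfl
      have h6 : (Submodule.Quotient.mk a : MvPolynomial (Fin n) R ⧸ L) = 0 :=
        (Submodule.Quotient.mk_eq_zero L).2 ha
      rw [h5, Submodule.Quotient.mk_sub, Submodule.Quotient.mk_sub, h6, sub_zero, add_sub_cancel]
    rw [h4]
    exact Submodule.add_mem_sup (Submodule.sum_mem _ fun i _ => Submodule.smul_mem _ _
      (Submodule.subset_span ⟨i, rfl⟩)) h3
  have hne : RingHom.ker π ≠ ⊤ := RingHom.ker_ne_top π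
  have hjac : RingHom.ker π ≤ Ideal.jacobson ⊥ := by
    rw [IsLocalRing.jacobson_eq_maximalIdeal ⊥ bot_ne_top]
    exact IsLocalRing.le_maximalIdeal hne
  have htop : (⊤ : Submodule R (MvPolynomial (Fin n) R ⧸ L)) ≤ P :=
    Submodule.le_of_le_smul_of_le_jacobson_bot Module.Finite.fg_top hjac hkey
  intro f
  have h1 : (Submodule.Quotient.mk f : MvPolynomial (Fin n) R ⧸ L) ∈ P := htop trivial
  obtain ⟨c, hc⟩ := (Submodule.mem_span_range_iff_exists_fun _).1 h1
  refine ⟨c, ?_⟩
  rw [← Submodule.Quotient.eq, ← hc, ← Submodule.mkQ_apply, map_sum]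
  refine Finset.sum_congr rfl fun i _ => ?_
  rw [Submodule.mkQ_apply, ← MvPolynomial.smul_eq_C_mul]
  rfl

end Pool.Agent.H48.CMS
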