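import Pool.Agent.H48.CMS.Pairs

/-! Flat limits of pairs of ideals, the first of which is the ideal of distinct points. -/

namespace Pool.Agent.H48.CMS

open MvPolynomial Pool.Agent.H6.CMT

universe u

/-- `(I, J)` is a flat limit of pairs of ideals of finite colength, the first one being the ideal
of finitely many distinct points: there are a local ring `R` whose residue field `κ` is an
extension of `k`, a ring map `ι : R → F` to a field, ideals `II`, `JJ` of `R[x_1..x_n]` such that
`R[x]/II`, `R[x]/JJ` and `R[x]/(II + JJ)` are free `R`-modules of finite rank, which generate in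
`κ[x]` the same ideals as `I` and `J`, and such that `II` generates in `F[x]` the ideal of all
polynomials vanishing on a finite set `Z` of points of `F^n`. -/
def FlatLimitPair {k : Type u} [Field k] {n : ℕ} (I J : Ideal (MvPolynomial (Fin n) k)) : Prop :=
  ∃ (R κ F : Type u) (_ : CommRing R) (_ : IsLocalRing R) (_ : Field κ) (_ : Field F)
    (e : k →+* κ) (π : R →+* κ) (ι : R →+* F) (II JJ : Ideal (MvPolynomial (Fin n) R))
    (Z : Finset (Fin n → F)),
    Function.Surjective π ∧
    Module.Free R (MvPolynomial (Fin n) R ⧸ II) ∧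
    Module.Finite R (MvPolynomial (Fin n) R ⧸ II) ∧
    Module.Free R (MvPolynomial (Fin n) R ⧸ JJ) ∧
    Module.Finite R (MvPolynomial (Fin n) R ⧸ JJ) ∧
    Module.Free R (MvPolynomial (Fin n) R ⧸ (II ⊔ JJ)) ∧
    II.map (MvPolynomial.map π) = I.map (MvPolynomial.map e) ∧
    JJ.map (MvPolynomial.map π) = J.map (MvPolynomial.map e) ∧
    ∀ f : MvPolynomial (Fin n) F, f ∈ II.map (MvPolynomial.map ι) ↔
      ∀ p ∈ Z, MvPolynomial.eval p f = 0

theorem FlatLimitPair.type_le {k : Type u} [Field k] {n : ℕ} (hn : 0 < n)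
    {I J : Ideal (MvPolynomial (Fin n) k)} (h : FlatLimitPair I J) (c : ℕ)
    (hc : irr k n ^ c ≤ I * J) (hI : I ≤ irr k n) (hJ : J ≤ irr k n) : n ≤ cmType (I * J) := by
  obtain ⟨R, κ, F, _, _, _, _, e, π, ι, II, JJ, Z, hπ, h1, h2, h3, h4, h5, hI', hJ', hZ⟩ := h
  exact type_of_length hn I J c hc hI hJ
    (limit_length hn I J c hc e π ι II JJ Z hπ hI' hJ' hZ)

end Pool.Agent.H48.CMS
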