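import Pool.Agent.H48.CMS.Fam

/-! Pairs of ideals which are flat limits of pairs `(ideal of distinct points, arbitrary)`. -/

namespace Pool.Agent.H48.CMS

open MvPolynomial Pool.Agent.H6.CMT

variable {n : ℕ}

theorem iz_eq {F : Type*} [Field F] (Z : Finset (Fin n → F)) (L : Ideal (MvPolynomial (Fin n) F))
    (h : ∀ f, f ∈ L ↔ ∀ p ∈ Z, MvPolynomial.eval p f = 0) : L = iz Z := by
  ext f
  rw [h, mem_iz]

/-- the length inequality for limits -/
theorem limit_length {k R κ F : Type*} [Field k] [CommRing R] [IsLocalRing R] [Field κ] [Field F]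
    (hn : 0 < n) (I J : Ideal (MvPolynomial (Fin n) k)) (c : ℕ) (hc : irr k n ^ c ≤ I * J)
    (e : k →+* κ) (π : R →+* κ) (ι : R →+* F) (II JJ : Ideal (MvPolynomial (Fin n) R))
    (Z : Finset (Fin n → F)) (hπ : Function.Surjective π)
    [Module.Free R (MvPolynomial (Fin n) R ⧸ II)] [Module.Finite R (MvPolynomial (Fin n) R ⧸ II)]
    [Module.Free R (MvPolynomial (Fin n) R ⧸ JJ)] [Module.Finite R (MvPolynomial (Fin n) R ⧸ JJ)]
    [Module.Free R (MvPolynomial (Fin n) R ⧸ (II ⊔ JJ))]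
    (hI : II.map (MvPolynomial.map π) = I.map (MvPolynomial.map e))
    (hJ : JJ.map (MvPolynomial.map π) = J.map (MvPolynomial.map e))
    (hZ : ∀ f, f ∈ II.map (MvPolynomial.map ι) ↔ ∀ p ∈ Z, MvPolynomial.eval p f = 0) :
    Module.finrank k (MvPolynomial (Fin n) k ⧸ I) +
      Module.finrank k (MvPolynomial (Fin n) k ⧸ J) +
      (n - 1) * Module.finrank k (MvPolynomial (Fin n) k ⧸ (I ⊔ J)) ≤
      Module.finrank k (MvPolynomial (Fin n) k ⧸ (I * J)) := by
  have hIJI : I * J ≤ I := Ideal.mul_le_left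
  have hIJJ : I * J ≤ J := Ideal.mul_le_right
  have f1 := finite_quot (I * J) c hc
  have f2 := finite_quot I c (hc.trans hIJI)
  have f3 := finite_quot J c (hc.trans hIJJ)
  have f4 := finite_quot (I ⊔ J) c ((hc.trans hIJI).trans le_sup_left)
  have f5 : Module.Finite R (MvPolynomial (Fin n) R ⧸ (II ⊔ JJ)) :=
    Module.Finite.of_surjective ((Submodule.factor (p := II) (p' := II ⊔ JJ)
      le_sup_left).restrictScalars R) (by
        intro z
        obtain ⟨y, rfl⟩ := Submodule.Quotient.mk_surjective _ z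
        exact ⟨Submodule.Quotient.mk y, rfl⟩)
  have f6 : Module.Finite R (MvPolynomial (Fin n) R ⧸ (II * JJ)) := finite_mul _ _
  have hI' : ext π II = ext e I := hI
  have hJ' : ext π JJ = ext e J := hJ
  have hZ' : ext ι II = iz Z := iz_eq Z _ hZ
  have hIJ' : ext π (II ⊔ JJ) = ext e (I ⊔ J) := by rw [ext_sup, ext_sup, hI', hJ']
  have hm' : ext π (II * JJ) = ext e (I * J) := by rw [ext_mul, ext_mul, hI', hJ']
  have a1 := finrank_ext_free e I
  have a2 := finrank_ext_free e J
  have a3 := finrank_ext_free e (I ⊔ J)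
  have a4 := finrank_ext_free e (I * J)
  have b1 := finrank_ext_free π II
  have b2 := finrank_ext_free π JJ
  have b3 := finrank_ext_free π (II ⊔ JJ)
  have c1 := finrank_ext_free ι II
  have c2 := finrank_ext_free ι JJ
  have c3 := finrank_ext_free ι (II ⊔ JJ)
  have d := finrank_ext_mono π hπ ι (II * JJ)
  rw [hI'] at b1
  rw [hJ'] at b2
  rw [hIJ'] at b3
  rw [hm', ext_mul, hZ'] at d
  rw [hZ'] at c1
  rw [ext_sup, hZ'] at c3
  obtain ⟨d0, B0, hB0⟩ := exists_span_finite JJ
  have f7 : Module.Finite F (MvPolynomial (Fin n) F ⧸ ext ι JJ) := finite_ext ι JJ B0 hB0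
  have g := point_length hn Z (ext ι JJ)
  have e1 : Module.finrank k (MvPolynomial (Fin n) k ⧸ I) =
      Module.finrank F (MvPolynomial (Fin n) F ⧸ iz Z) := by omega
  have e2 : Module.finrank k (MvPolynomial (Fin n) k ⧸ J) =
      Module.finrank F (MvPolynomial (Fin n) F ⧸ ext ι JJ) := by omega
  have e3 : Module.finrank k (MvPolynomial (Fin n) k ⧸ (I ⊔ J)) =
      Module.finrank F (MvPolynomial (Fin n) F ⧸ (iz Z ⊔ ext ι JJ)) := by omega
  rw [e1, e2, e3]
  exact g.trans (d.trans a4.le)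

/-- a length inequality gives the type inequality -/
theorem type_of_length {k : Type*} [Field k] (hn : 0 < n)
    (I J : Ideal (MvPolynomial (Fin n) k)) (c : ℕ) (hc : irr k n ^ c ≤ I * J)
    (hI : I ≤ irr k n) (hJ : J ≤ irr k n)
    (h : Module.finrank k (MvPolynomial (Fin n) k ⧸ I) +
      Module.finrank k (MvPolynomial (Fin n) k ⧸ J) +
      (n - 1) * Module.finrank k (MvPolynomial (Fin n) k ⧸ (I ⊔ J)) ≤
      Module.finrank k (MvPolynomial (Fin n) k ⧸ (I * J))) : n ≤ cmType (I * J) := by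
  have h1 := type_bound I J c hc
  have hIJI : I * J ≤ I := Ideal.mul_le_left
  have f4 := finite_quot (I ⊔ J) c ((hc.trans hIJI).trans le_sup_left)
  have h2 : 0 < Module.finrank k (MvPolynomial (Fin n) k ⧸ (I ⊔ J)) := by
    have : Nontrivial (MvPolynomial (Fin n) k ⧸ (I ⊔ J)) := by
      apply Ideal.Quotient.nontrivial_iff.2
      intro htop
      have h3 : (⊤ : Ideal (MvPolynomial (Fin n) k)) ≤ irr k n := htop ▸ sup_le hI hJ
      exact irr_isPrime.ne_top (top_le_iff.1 h3)
    exact Module.finrank_pos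
  obtain ⟨m, rfl⟩ : ∃ m, n = m + 1 := ⟨n - 1, by omega⟩
  rw [Nat.add_sub_cancel] at h
  have h3 : (m + 1) * Module.finrank k (MvPolynomial (Fin (m + 1)) k ⧸ (I ⊔ J)) ≤
      cmType (I * J) * Module.finrank k (MvPolynomial (Fin (m + 1)) k ⧸ (I ⊔ J)) := by
    rw [add_mul, one_mul]
    omega
  exact Nat.le_of_mul_le_mul_right h3 h2

end Pool.Agent.H48.CMS
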