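import Pool.Agent.H48.CMS.Soc

/-! Lengths for ideals of finite colength over a field: products with ideals of points. -/

namespace Pool.Agent.H48.CMS

open MvPolynomial Pool.Agent.H6.CMT

variable {k : Type*} [Field k] {n : ℕ}

/-- the maximal ideal of a point -/
noncomputable def mp (p : Fin n → k) : Ideal (MvPolynomial (Fin n) k) :=
  RingHom.ker (MvPolynomial.eval p)

theorem mem_mp (p : Fin n → k) (f : MvPolynomial (Fin n) k) :
    f ∈ mp p ↔ MvPolynomial.eval p f = 0 := Iff.rfl

theorem mp_isPrime (p : Fin n → k) : (mp p).IsPrime := RingHom.ker_isPrime _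

theorem sub_C_mem_mp (p : Fin n → k) (f : MvPolynomial (Fin n) k) :
    f - C (MvPolynomial.eval p f) ∈ mp p := by
  rw [mem_mp, map_sub, eval_C, sub_self]

/-- translation -/
noncomputable def transl (p : Fin n → k) : MvPolynomial (Fin n) k ≃ₐ[k] MvPolynomial (Fin n) k :=
  AlgEquiv.ofAlgHom (aeval (fun i => X i - C (p i))) (aeval (fun i => X i + C (p i)))
    (by
      apply MvPolynomial.algHom_ext
      intro i
      simp [MvPolynomial.algHom_C])
    (by
      apply MvPolynomial.algHom_ext
      intro i
      simp [MvPolynomial.algHom_C])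

theorem eval_transl (p : Fin n → k) (f : MvPolynomial (Fin n) k) :
    MvPolynomial.eval p (transl p f) = constantCoeff f := by
  change (MvPolynomial.eval p) (aeval (fun i => X i - C (p i)) f) = constantCoeff f
  induction f using MvPolynomial.induction_on with
  | C a => simp
  | add f g hf hg => rw [map_add, map_add, map_add, hf, hg]
  | mul_X f i hf => rw [map_mul, map_mul, map_mul, hf]; simp

theorem height_mp (p : Fin n → k) : (n : ℕ∞) ≤ (mp p).height := by
  have h1 : irr k n = Ideal.comap (transl p : MvPolynomial (Fin n) k ≃+* MvPolynomial (Fin n) k)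
      (mp p) := by
    ext f
    rw [Ideal.mem_comap, mem_mp]
    change f ∈ irr k n ↔ MvPolynomial.eval p (transl p f) = 0
    rw [eval_transl]
    constructor
    · exact constantCoeff_of_mem f
    · intro h
      have h2 := sub_C_mem f
      rwa [h, map_zero, sub_zero] at h2
  have h2 := height_irr (k := k) (h := n)
  rw [h1, RingEquiv.height_comap] at h2
  exact h2

/-- a quotient by a larger ideal is finite -/
theorem finite_of_le {L L' : Ideal (MvPolynomial (Fin n) k)} (h : L ≤ L')
    [Module.Finite k (MvPolynomial (Fin n) k ⧸ L)] :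
    Module.Finite k (MvPolynomial (Fin n) k ⧸ L') :=
  Module.Finite.of_surjective _ (fac_surjective L L' h)

/-- products of ideals of finite colength have finite colength -/
theorem finite_mul {R : Type*} [CommRing R] (I J : Ideal (MvPolynomial (Fin n) R))
    [Module.Finite R (MvPolynomial (Fin n) R ⧸ I)] [Module.Finite R (MvPolynomial (Fin n) R ⧸ J)] :
    Module.Finite R (MvPolynomial (Fin n) R ⧸ (I * J)) := by
  have hint : Algebra.IsIntegral R (MvPolynomial (Fin n) R ⧸ (I * J)) := by
    constructor
    intro x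
    obtain ⟨y, rfl⟩ := Ideal.Quotient.mk_surjective x
    have h1 : IsIntegral R ((Ideal.Quotient.mk I) y) := Algebra.IsIntegral.isIntegral _
    have h2 : IsIntegral R ((Ideal.Quotient.mk J) y) := Algebra.IsIntegral.isIntegral _
    obtain ⟨P, hP, hP0⟩ := h1
    obtain ⟨Q, hQ, hQ0⟩ := h2
    refine ⟨P * Q, hP.mul hQ, ?_⟩
    have key : ∀ (L : Ideal (MvPolynomial (Fin n) R)) (P : Polynomial R),
        Polynomial.eval₂ (algebraMap R (MvPolynomial (Fin n) R ⧸ L)) ((Ideal.Quotient.mk L) y) P =
          Ideal.Quotient.mk L (Polynomial.eval₂ MvPolynomial.C y P) := by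
      intro L P
      rw [Polynomial.hom_eval₂]
      rfl
    rw [key, Ideal.Quotient.eq_zero_iff_mem] at hP0 hQ0
    rw [key, Ideal.Quotient.eq_zero_iff_mem, Polynomial.eval₂_mul]
    exact Ideal.mul_mem_mul hP0 hQ0
  have hft : Algebra.FiniteType R (MvPolynomial (Fin n) R ⧸ (I * J)) := inferInstance
  exact Algebra.IsIntegral.finite

instance finite_mp (p : Fin n → k) : Module.Finite k (MvPolynomial (Fin n) k ⧸ mp p) := by
  refine Module.Finite.of_surjective
    (LinearMap.toSpanSingleton k (MvPolynomial (Fin n) k ⧸ mp p) (Submodule.Quotient.mk 1)) ?_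
  intro z
  obtain ⟨y, rfl⟩ := Submodule.Quotient.mk_surjective _ z
  refine ⟨MvPolynomial.eval p y, ?_⟩
  rw [LinearMap.toSpanSingleton_apply]
  change Submodule.Quotient.mk ((MvPolynomial.eval p y) • (1 : MvPolynomial (Fin n) k)) = _
  rw [eq_comm, Submodule.Quotient.eq, MvPolynomial.smul_eq_C_mul, mul_one]
  exact sub_C_mem_mp p y

theorem finrank_mp (p : Fin n → k) : Module.finrank k (MvPolynomial (Fin n) k ⧸ mp p) = 1 := by
  apply le_antisymm
  · have h1 : Function.Surjective
        (LinearMap.toSpanSingleton k (MvPolynomial (Fin n) k ⧸ mp p) (Submodule.Quotient.mk 1)) := by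
      intro z
      obtain ⟨y, rfl⟩ := Submodule.Quotient.mk_surjective _ z
      refine ⟨MvPolynomial.eval p y, ?_⟩
      rw [LinearMap.toSpanSingleton_apply]
      change Submodule.Quotient.mk ((MvPolynomial.eval p y) • (1 : MvPolynomial (Fin n) k)) = _
      rw [eq_comm, Submodule.Quotient.eq, MvPolynomial.smul_eq_C_mul, mul_one]
      exact sub_C_mem_mp p y
    have h2 := LinearMap.finrank_le_finrank_of_surjective h1
    rwa [Module.finrank_self] at h2
  · have : Nontrivial (MvPolynomial (Fin n) k ⧸ mp p) :=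
      Ideal.Quotient.nontrivial_iff.2 (mp_isPrime p).ne_top
    exact Module.finrank_pos

/-- Krull at a point: if `J` is contained in the maximal ideal `m` of a point then
`dim J/mJ ≥ n`. -/
theorem krull_point (J : Ideal (MvPolynomial (Fin n) k)) (p : Fin n → k) (hJ : J ≤ mp p)
    [Module.Finite k (MvPolynomial (Fin n) k ⧸ J)] :
    Module.finrank k (MvPolynomial (Fin n) k ⧸ J) + n ≤
      Module.finrank k (MvPolynomial (Fin n) k ⧸ (mp p * J)) := by
  have fin1 : Module.Finite k (MvPolynomial (Fin n) k ⧸ (mp p * J)) := finite_mul _ _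
  rw [dq_eq (mp p * J) J Ideal.mul_le_right]
  refine Nat.add_le_add_left ?_ _
  classical
  let b := Module.finBasis k (img (mp p * J) J)
  have hlift : ∀ j, ∃ y ∈ J, (Submodule.Quotient.mk y : MvPolynomial (Fin n) k ⧸ (mp p * J)) =
      (b j : _) := fun j => (mem_img _ _ _).1 (b j).2
  choose f hfJ hfb using hlift
  set s : Finset (MvPolynomial (Fin n) k) := Finset.univ.image f with hs
  have hsJ : Ideal.span (s : Set (MvPolynomial (Fin n) k)) ≤ J := by
    rw [Ideal.span_le]
    intro y hy
    obtain ⟨j, _, rfl⟩ := Finset.mem_image.1 (Finset.mem_coe.1 hy)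
    exact hfJ j
  have hgen : J ≤ Ideal.span (s : Set (MvPolynomial (Fin n) k)) ⊔ mp p * J := by
    intro y hy
    have hy' : (Submodule.Quotient.mk y : MvPolynomial (Fin n) k ⧸ (mp p * J)) ∈
      img (mp p * J) J := (mem_img _ _ _).2 ⟨y, hy, rfl⟩
    obtain ⟨co, hrep⟩ : ∃ co : Fin (Module.finrank k (img (mp p * J) J)) → k,
        ∑ j, co j • ((b j : img (mp p * J) J) : MvPolynomial (Fin n) k ⧸ (mp p * J)) =
          Submodule.Quotient.mk y := by
      refine ⟨fun j => b.repr ⟨_, hy'⟩ j, ?_⟩
      have hrep := congrArg (fun z : img (mp p * J) J =>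
        (z : MvPolynomial (Fin n) k ⧸ (mp p * J))) (b.sum_repr ⟨_, hy'⟩)
      simpa only [Submodule.coe_sum, Submodule.coe_smul] using hrep
    set z : MvPolynomial (Fin n) k := ∑ j, C (co j) * f j with hz
    have hyz : y - z ∈ mp p * J := by
      rw [← Submodule.Quotient.eq, ← hrep, hz, ← Submodule.mkQ_apply, map_sum]
      refine Finset.sum_congr rfl fun j _ => ?_
      rw [← hfb j, ← MvPolynomial.smul_eq_C_mul]
      rfl
    have hzs : z ∈ Ideal.span (s : Set (MvPolynomial (Fin n) k)) := by
      rw [hz]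
      refine Ideal.sum_mem _ fun j _ => Ideal.mul_mem_left _ _ (Ideal.subset_span ?_)
      rw [Finset.mem_coe, hs]
      exact Finset.mem_image_of_mem f (Finset.mem_univ j)
    have : y = z + (y - z) := by ring
    rw [this]
    exact Submodule.add_mem_sup hzs hyz
  obtain ⟨g, hg1, hg2⟩ := Submodule.exists_sub_one_mem_and_smul_le_of_fg_of_le_sup
    (I := mp p) (N := Ideal.span (s : Set (MvPolynomial (Fin n) k))) (N' := J) (P := J)
    (IsNoetherian.noetherian J) le_rfl (by simpa [smul_eq_mul] using hgen)
  have hprime := mp_isPrime p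
  have hgm : g ∉ mp p := by
    intro hg
    have : (1 : MvPolynomial (Fin n) k) ∈ mp p := by
      have := sub_mem hg hg1
      simpa using this
    exact hprime.ne_top ((Ideal.eq_top_iff_one _).2 this)
  have hmin : mp p ∈ (Ideal.span (s : Set (MvPolynomial (Fin n) k))).minimalPrimes := by
    refine ⟨⟨hprime, hsJ.trans hJ⟩, ?_⟩
    rintro q ⟨hq, hsq⟩ hqm
    have hJq : J ≤ q := by
      intro y hy
      have h1 : g * y ∈ q := hsq (hg2 (Submodule.smul_mem_pointwise_smul y g J hy))
      rcases hq.mem_or_mem h1 with h2 | h2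
      · exact absurd (hqm h2) hgm
      · exact h2
    have fq : Module.Finite k (MvPolynomial (Fin n) k ⧸ q) := finite_of_le hJq
    have hqdom : IsDomain (MvPolynomial (Fin n) k ⧸ q) := Ideal.Quotient.isDomain q
    have hfield : IsField (MvPolynomial (Fin n) k ⧸ q) :=
      isField_of_isIntegral_of_isField' (R := k) (Field.toIsField k)
    have hmax : q.IsMaximal := Ideal.Quotient.maximal_of_isField q hfield
    exact (hmax.eq_of_le hprime.ne_top hqm).ge
  have h1 := Ideal.height_le_card_of_mem_minimalPrimes_span_finset hmin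
  have h2 := (height_mp p).trans h1
  have h3 : n ≤ s.card := by exact_mod_cast h2
  refine h3.trans (Finset.card_image_le.trans ?_)
  simp

/-- if `J` is not contained in the maximal ideal `m` of a point then `dim J/mJ ≥ 1`. -/
theorem coprime_point (J : Ideal (MvPolynomial (Fin n) k)) (p : Fin n → k) (hJ : ¬ J ≤ mp p)
    [Module.Finite k (MvPolynomial (Fin n) k ⧸ J)] :
    Module.finrank k (MvPolynomial (Fin n) k ⧸ J) + 1 ≤
      Module.finrank k (MvPolynomial (Fin n) k ⧸ (mp p * J)) := by
  obtain ⟨f, hfJ, hf⟩ := SetLike.not_le_iff_exists.1 hJ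
  have hsup : mp p ⊔ J = ⊤ := by
    rw [Ideal.eq_top_iff_one]
    have h1 := sub_C_mem_mp p f
    rw [mem_mp] at hf
    have h2 : C (MvPolynomial.eval p f) ∈ mp p ⊔ J := by
      have : C (MvPolynomial.eval p f) = -(f - C (MvPolynomial.eval p f)) + f := by ring
      rw [this]
      exact Submodule.add_mem_sup (neg_mem h1) hfJ
    have h3 := Ideal.mul_mem_left _ (C (MvPolynomial.eval p f)⁻¹) h2
    rw [← map_mul, inv_mul_cancel₀ hf, map_one] at h3
    exact h3
  have hinf : mp p * J = mp p ⊓ J :=
    Ideal.mul_eq_inf_of_isCoprime (Ideal.isCoprime_iff_sup_eq.2 hsup)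
  have fin1 : Module.Finite k (MvPolynomial (Fin n) k ⧸ (mp p * J)) := finite_mul _ _
  rw [hinf] at fin1 ⊢
  have h1 := dq_modular (mp p) J
  rw [hsup, finrank_mp] at h1
  have h2 : Module.finrank k (MvPolynomial (Fin n) k ⧸ (⊤ : Ideal (MvPolynomial (Fin n) k))) = 0 := by
    have : Subsingleton (MvPolynomial (Fin n) k ⧸ (⊤ : Ideal (MvPolynomial (Fin n) k))) :=
      Submodule.Quotient.subsingleton_iff.2 rfl
    exact Module.finrank_zero_of_subsingleton
  omega

/-- the ideal of a finite set of points -/
noncomputable def iz (Z : Finset (Fin n → k)) : Ideal (MvPolynomial (Fin n) k) where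
  carrier := {f | ∀ p ∈ Z, MvPolynomial.eval p f = 0}
  add_mem' := by
    intro a b ha hb p hp
    rw [map_add, ha p hp, hb p hp, add_zero]
  zero_mem' := by
    intro p _
    exact map_zero _
  smul_mem' := by
    intro c a ha p hp
    rw [smul_eq_mul, map_mul, ha p hp, mul_zero]

theorem mem_iz (Z : Finset (Fin n → k)) (f : MvPolynomial (Fin n) k) :
    f ∈ iz Z ↔ ∀ p ∈ Z, MvPolynomial.eval p f = 0 := Iff.rfl

/-- separating a point from a finite set -/
theorem exists_sep (Z : Finset (Fin n → k)) (p : Fin n → k) (hp : p ∉ Z) :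
    ∃ g ∈ iz Z, MvPolynomial.eval p g = 1 := by
  classical
  have h1 : ∀ q ∈ Z, ∃ g : MvPolynomial (Fin n) k,
      MvPolynomial.eval q g = 0 ∧ MvPolynomial.eval p g = 1 := by
    intro q hq
    have hne : p ≠ q := fun h => hp (h ▸ hq)
    obtain ⟨i, hi⟩ := Function.ne_iff.1 hne
    refine ⟨C (p i - q i)⁻¹ * (X i - C (q i)), ?_, ?_⟩
    · simp
    · simp only [map_mul, eval_C, map_sub, eval_X]
      exact inv_mul_cancel₀ (sub_ne_zero.2 hi)
  choose! g hg using h1
  refine ⟨∏ q ∈ Z, g q, ?_, ?_⟩
  · intro q hq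
    rw [map_prod]
    exact Finset.prod_eq_zero hq (hg q hq).1
  · rw [map_prod]
    exact Finset.prod_eq_one fun q hq => (hg q hq).2

theorem iz_empty : iz (∅ : Finset (Fin n → k)) = ⊤ := by
  rw [eq_top_iff]
  intro f _ p hp
  simp at hp

theorem finite_iz (Z : Finset (Fin n → k)) : Module.Finite k (MvPolynomial (Fin n) k ⧸ iz Z) := by
  classical
  let Φ : (MvPolynomial (Fin n) k ⧸ iz Z) →ₗ[k] (Z → k) :=
    (Submodule.restrictScalars k (iz Z)).liftQ
      { toFun := fun f p => MvPolynomial.eval p f
        map_add' := by intro a b; funext p; simp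
        map_smul' := by intro a b; funext p; simp [MvPolynomial.smul_eq_C_mul] } (by
        intro f hf
        rw [LinearMap.mem_ker]
        funext p
        exact hf p p.2)
  refine Module.Finite.of_injective Φ ?_
  rw [injective_iff_map_eq_zero]
  intro a ha
  obtain ⟨f, rfl⟩ := Submodule.Quotient.mk_surjective _ a
  rw [Submodule.Quotient.mk_eq_zero]
  intro p hp
  exact congrFun ha ⟨p, hp⟩

theorem finrank_iz_le (Z : Finset (Fin n → k)) :
    Module.finrank k (MvPolynomial (Fin n) k ⧸ iz Z) ≤ Z.card := by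
  classical
  let Φ : (MvPolynomial (Fin n) k ⧸ iz Z) →ₗ[k] (Z → k) :=
    (Submodule.restrictScalars k (iz Z)).liftQ
      { toFun := fun f p => MvPolynomial.eval p f
        map_add' := by intro a b; funext p; simp
        map_smul' := by intro a b; funext p; simp [MvPolynomial.smul_eq_C_mul] } (by
        intro f hf
        rw [LinearMap.mem_ker]
        funext p
        exact hf p p.2)
  have hΦ : Function.Injective Φ := by
    rw [injective_iff_map_eq_zero]
    intro a ha
    obtain ⟨f, rfl⟩ := Submodule.Quotient.mk_surjective _ a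
    rw [Submodule.Quotient.mk_eq_zero]
    intro p hp
    exact congrFun ha ⟨p, hp⟩
  have h1 := LinearMap.finrank_le_finrank_of_injective hΦ
  rwa [Module.finrank_fintype_fun_eq_card, Fintype.card_coe] at h1

open Classical in
/-- `S/(I_Z + J)` has dimension at most the number of points of `Z` in the zero set of `J` -/
theorem finrank_sup_le (Z : Finset (Fin n → k)) (J : Ideal (MvPolynomial (Fin n) k)) :
    Module.finrank k (MvPolynomial (Fin n) k ⧸ (iz Z ⊔ J)) ≤ (Z.filter fun p => J ≤ mp p).card := by
  have hle : iz (Z.filter fun p => J ≤ mp p) ≤ iz Z ⊔ J := by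
    intro g hg
    have h1 : ∀ q ∈ Z, ¬ J ≤ mp q → ∃ f ∈ J, MvPolynomial.eval q f = 1 := by
      intro q _ hq
      obtain ⟨f, hfJ, hf⟩ := SetLike.not_le_iff_exists.1 hq
      rw [mem_mp] at hf
      refine ⟨C (MvPolynomial.eval q f)⁻¹ * f, Ideal.mul_mem_left _ _ hfJ, ?_⟩
      rw [map_mul, eval_C, inv_mul_cancel₀ hf]
    choose! f hf using h1
    set P := ∏ q ∈ Z.filter (fun p => ¬ J ≤ mp p), (1 - f q) with hP
    have hPJ : 1 - P ∈ J := by
      rw [← Ideal.Quotient.eq_zero_iff_mem, map_sub, map_one, hP, map_prod, sub_eq_zero, eq_comm]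
      refine Finset.prod_eq_one fun q hq => ?_
      rw [Finset.mem_filter] at hq
      rw [map_sub, map_one, Ideal.Quotient.eq_zero_iff_mem.2 (hf q hq.1 hq.2).1, sub_zero]
    have hgP : g * P ∈ iz Z := by
      intro p hp
      rw [map_mul]
      by_cases hJp : J ≤ mp p
      · rw [hg p (Finset.mem_filter.2 ⟨hp, hJp⟩), zero_mul]
      · have : MvPolynomial.eval p P = 0 := by
          rw [hP, map_prod]
          refine Finset.prod_eq_zero (Finset.mem_filter.2 ⟨hp, hJp⟩) ?_
          rw [map_sub, map_one, (hf p hp hJp).2, sub_self]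
        rw [this, mul_zero]
    have : g = g * P + g * (1 - P) := by ring
    rw [this]
    exact Submodule.add_mem_sup hgP (Ideal.mul_mem_left _ _ hPJ)
  have fin1 := finite_iz (Z.filter fun p => J ≤ mp p)
  exact (dq_anti _ _ hle).trans (finrank_iz_le _)

open Classical in
/-- products with the ideal of a finite set of points -/
theorem point_product (Z : Finset (Fin n → k)) (J : Ideal (MvPolynomial (Fin n) k))
    [Module.Finite k (MvPolynomial (Fin n) k ⧸ J)] :
    Module.finrank k (MvPolynomial (Fin n) k ⧸ J) + ∑ p ∈ Z, (if J ≤ mp p then n else 1) ≤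
      Module.finrank k (MvPolynomial (Fin n) k ⧸ (iz Z * J)) := by
  induction Z using Finset.induction_on with
  | empty => rw [Finset.sum_empty, add_zero, iz_empty, Ideal.top_mul]
  | insert p Z hp ih =>
    rw [Finset.sum_insert hp]
    have fZ := finite_iz Z
    have fL : Module.Finite k (MvPolynomial (Fin n) k ⧸ (iz Z * J)) := finite_mul _ _
    have fpJ : Module.Finite k (MvPolynomial (Fin n) k ⧸ (mp p * J)) := finite_mul _ _
    have fpL : Module.Finite k (MvPolynomial (Fin n) k ⧸ (mp p * (iz Z * J))) := finite_mul _ _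
    obtain ⟨g, hgZ, hgp⟩ := exists_sep Z p hp
    have h1g : 1 - g ∈ mp p := by rw [mem_mp, map_sub, map_one, hgp, sub_self]
    have h1 : iz (insert p Z) * J ≤ mp p * (iz Z * J) := by
      rw [← mul_assoc]
      refine Ideal.mul_mono_left ?_
      intro f hf
      have hfp : f ∈ mp p := hf p (Finset.mem_insert_self _ _)
      have hfZ : f ∈ iz Z := fun q hq => hf q (Finset.mem_insert_of_mem hq)
      have : f = f * g + (1 - g) * f := by ring
      rw [this]
      exact add_mem (Ideal.mul_mem_mul hfp hgZ) (Ideal.mul_mem_mul h1g hfZ)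
    have h2 : mp p * (iz Z * J) ≤ (iz Z * J) ⊓ (mp p * J) :=
      le_inf Ideal.mul_le_right (Ideal.mul_mono_right Ideal.mul_le_right)
    have h3 : (iz Z * J) ⊔ (mp p * J) = J := by
      apply le_antisymm (sup_le Ideal.mul_le_right Ideal.mul_le_right)
      intro f hf
      have : f = g * f + (1 - g) * f := by ring
      rw [this]
      exact Submodule.add_mem_sup (Ideal.mul_mem_mul hgZ hf) (Ideal.mul_mem_mul h1g hf)
    have finf : Module.Finite k (MvPolynomial (Fin n) k ⧸ ((iz Z * J) ⊓ (mp p * J))) :=
      finite_of_le h2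
    have h4 := dq_modular (iz Z * J) (mp p * J)
    rw [h3] at h4
    have h5 := dq_anti _ _ h2
    have fins : Module.Finite k (MvPolynomial (Fin n) k ⧸ (iz (insert p Z) * J)) := by
      have := finite_iz (insert p Z)
      exact finite_mul _ _
    have h6 := dq_anti _ _ h1
    split_ifs with hJ
    · have h7 := krull_point J p hJ
      omega
    · have h7 := coprime_point J p hJ
      omega

/-- the length inequality when one ideal is the ideal of a finite set of points -/
theorem point_length (hn : 0 < n) (Z : Finset (Fin n → k)) (J : Ideal (MvPolynomial (Fin n) k))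
    [Module.Finite k (MvPolynomial (Fin n) k ⧸ J)] :
    Module.finrank k (MvPolynomial (Fin n) k ⧸ iz Z) +
      Module.finrank k (MvPolynomial (Fin n) k ⧸ J) +
      (n - 1) * Module.finrank k (MvPolynomial (Fin n) k ⧸ (iz Z ⊔ J)) ≤
      Module.finrank k (MvPolynomial (Fin n) k ⧸ (iz Z * J)) := by
  classical
  have h1 := point_product Z J
  have h2 := finrank_sup_le Z J
  have h3 := finrank_iz_le Z
  have h4 : ∑ p ∈ Z, (if J ≤ mp p then n else 1) =
      Z.card + (n - 1) * (Z.filter fun p => J ≤ mp p).card := by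
    have h5 : ∀ p ∈ Z, (if J ≤ mp p then n else 1) = 1 + (if J ≤ mp p then (n - 1) else 0) := by
      intro p _
      split_ifs
      · omega
      · rfl
    rw [Finset.sum_congr rfl h5, Finset.sum_add_distrib, Finset.sum_const, smul_eq_mul, mul_one,
      ← Finset.sum_filter, Finset.sum_const, smul_eq_mul, mul_comm (n - 1)]
  have h6 := Nat.mul_le_mul_left (n - 1) h2
  omega

end Pool.Agent.H48.CMS
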