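import Pool.Agent.H90.CMR.Red

/-! `reduction` when `d = 0` (any field) or `k` is infinite. -/

namespace Pool.Agent.H90.CMR

open MvPolynomial Pool.Agent.H6.CMT RingTheory.Sequence

variable {k : Type*} [Field k]

/-- **Reduction to the Artinian case**, any field if `d = 0`. -/
theorem reduction' {n : ℕ} {ι : Type*} [Finite ι]
    (L : ι → Ideal (MvPolynomial (Fin n) k)) (ys : ι → List (MvPolynomial (Fin n) k)) (d : ℕ)
    (hk : d = 0 ∨ Infinite k)
    (hlen : ∀ i, (ys i).length = d) (hys : ∀ i, ∀ y ∈ ys i, y ∈ irr k n)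
    (hreg : ∀ i, RegSeq (irr k n) (L i) (ys i)) (i₀ : ι) (hdim : (L i₀).height + d = n)
    (W : Submodule k (MvPolynomial (Fin n) k)) (hW : W ≤ LinearMap.range (lin k n)) :
    ∃ (h : ℕ) (φ : MvPolynomial (Fin n) k →ₐ[k] MvPolynomial (Fin h) k) (c : ℕ),
      h + d = n ∧ (L i₀).height = h ∧ Function.Surjective φ ∧
      Ideal.map φ (irr k n) = irr k h ∧
      irr k n ^ c ≤ cl (irr k n) (L i₀ ⊔ RingHom.ker φ) ∧
      (∀ i, typ k (irr k n) (L i ⊔ RingHom.ker φ) =
        typ k (irr k n) (L i ⊔ Ideal.ofList (ys i))) ∧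
      (∃ zs : List (MvPolynomial (Fin n) k), zs.length = d ∧
        (∀ z ∈ zs, z ∈ LinearMap.range (lin k n)) ∧ RingHom.ker φ = Ideal.ofList zs) ∧
      min n (Module.finrank k W + d) ≤ Module.finrank k ↥(W ⊔
        (LinearMap.range (lin k n) ⊓ (RingHom.ker φ).restrictScalars k)) := by
  rcases hk with rfl | hk
  · have hker : RingHom.ker (AlgHom.id k (MvPolynomial (Fin n) k)) = ⊥ := by
      rw [RingHom.ker_eq_bot_iff_eq_zero]
      intro x hx
      exact hx
    have hht : (L i₀).height = (n : ℕ) := by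
      rw [← hdim]; simp
    have hB := hb_height (m := irr k n) (L i₀)
    obtain ⟨c, hc⟩ := HB.pow_le (L := L i₀) (fun P hP h1 h2 =>
      (height_irr_le n).trans (hht.symm.le.trans (hB P hP h1 h2)))
    refine ⟨n, AlgHom.id k _, c, rfl, hht, Function.surjective_id, ?_, ?_, ?_,
      ⟨[], rfl, by simp, ?_⟩, ?_⟩
    · exact Ideal.map_id _
    · rw [hker, sup_bot_eq]
      exact hc
    · intro i
      have h0 : ys i = [] := List.eq_nil_of_length_eq_zero (hlen i)
      rw [hker, h0, Ideal.ofList_nil]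
    · rw [hker, Ideal.ofList_nil]
    · have hfin : FiniteDimensional k ↥(W ⊔ (LinearMap.range (lin k n) ⊓
          (RingHom.ker (AlgHom.id k (MvPolynomial (Fin n) k))).restrictScalars k)) :=
        Submodule.finiteDimensional_of_le (S₂ := LinearMap.range (lin k n))
          (sup_le hW inf_le_left)
      exact (min_le_right _ _).trans (Submodule.finrank_mono le_sup_left)
  · exact reduction L ys d hlen hys hreg i₀ hdim W hW

end Pool.Agent.H90.CMR
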