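import Pool.Agent.H6.CMT.Curv2

/-! Functionals detecting the socle; the type bounds the length. -/

namespace Pool.Agent.H48.CMS

open MvPolynomial Pool.Agent.H6.CMT

variable {k : Type*} [Field k] {n : ℕ}

/-- every non-zero element has a non-zero multiple in the socle -/
theorem exists_soc {M : Type*} [AddCommGroup M] [Module (MvPolynomial (Fin n) k) M] (c : ℕ)
    (u : M) (hu : u ≠ 0) (hc : ∀ g ∈ irr k n ^ c, g • u = 0) :
    ∃ g : MvPolynomial (Fin n) k, g • u ≠ 0 ∧
      ∀ i, (X i : MvPolynomial (Fin n) k) • (g • u) = 0 := by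
  classical
  have hex : ∃ t, ∀ g ∈ irr k n ^ t, g • u = 0 := ⟨c, hc⟩
  obtain ⟨t, ht⟩ : ∃ t, Nat.find hex = t := ⟨_, rfl⟩
  have h1 := Nat.find_spec hex
  rw [ht] at h1
  cases t with
  | zero =>
    exact absurd (by simpa using h1 1 (by simp)) hu
  | succ t =>
    have h2 : ¬ ∀ g ∈ irr k n ^ t, g • u = 0 := Nat.find_min hex (by omega)
    simp only [not_forall] at h2
    obtain ⟨g, hg, hgu⟩ := h2
    refine ⟨g, hgu, fun i => ?_⟩
    rw [smul_smul]
    apply h1
    rw [pow_succ']
    exact Ideal.mul_mem_mul (X_mem_irr i) hg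

theorem smul_mem_img (L A : Ideal (MvPolynomial (Fin n) k)) (g : MvPolynomial (Fin n) k)
    (u : MvPolynomial (Fin n) k ⧸ L) (hu : u ∈ img L A) : g • u ∈ img L A := by
  obtain ⟨y, hy, rfl⟩ := (mem_img _ _ _).1 hu
  exact (mem_img _ _ _).2 ⟨g * y, Ideal.mul_mem_left _ _ hy, rfl⟩

/-- functionals detecting the elements of `A/L` -/
theorem exists_functionals (L A : Ideal (MvPolynomial (Fin n) k)) (c : ℕ)
    (hc : irr k n ^ c ≤ L) :
    ∃ ψ : Fin (Module.finrank k (soc L ⊓ img L A : Submodule k (MvPolynomial (Fin n) k ⧸ L))) →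
      Module.Dual k (MvPolynomial (Fin n) k ⧸ L),
      ∀ u ∈ img L A, (∀ (g : MvPolynomial (Fin n) k) i, ψ i (g • u) = 0) → u = 0 := by
  have fin1 := finite_quot L c hc
  let b := Module.finBasis k (soc L ⊓ img L A : Submodule k (MvPolynomial (Fin n) k ⧸ L))
  have hex := fun i => LinearMap.exists_extend (b.coord i)
  choose ψ hψ using hex
  refine ⟨ψ, ?_⟩
  intro u hu h0
  by_contra hne
  have hkill : ∀ g ∈ irr k n ^ c, g • u = 0 := by
    intro g hg
    obtain ⟨y, -, rfl⟩ := (mem_img _ _ _).1 hu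
    rw [← Submodule.Quotient.mk_smul, Submodule.Quotient.mk_eq_zero]
    exact Ideal.mul_mem_right _ _ (hc hg)
  obtain ⟨g, hgu, hsoc⟩ := exists_soc c u hne hkill
  apply hgu
  have hmem : g • u ∈ (soc L ⊓ img L A : Submodule k (MvPolynomial (Fin n) k ⧸ L)) :=
    ⟨(mem_soc _ _).2 hsoc, smul_mem_img L A g u hu⟩
  have h1 : (⟨g • u, hmem⟩ : (soc L ⊓ img L A : Submodule k (MvPolynomial (Fin n) k ⧸ L))) = 0 := by
    apply b.forall_coord_eq_zero_iff.1
    intro i
    have h2 := LinearMap.congr_fun (hψ i) ⟨g • u, hmem⟩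
    have h3 := h0 g i
    change ψ i (g • u) = b.coord i ⟨g • u, hmem⟩ at h2
    rw [h3] at h2
    exact h2.symm
  exact congrArg Subtype.val h1

/-- multiplication `S/C × A/L → S/L` when `CA ⊆ L`, followed by a functional -/
noncomputable def pairing (L A C : Ideal (MvPolynomial (Fin n) k)) (hCA : C * A ≤ L)
    (ψ : Module.Dual k (MvPolynomial (Fin n) k ⧸ L)) :
    img L A →ₗ[k] Module.Dual k (MvPolynomial (Fin n) k ⧸ C) where
  toFun u := (Submodule.restrictScalars k C).liftQ
    { toFun := fun g => ψ (g • (u : MvPolynomial (Fin n) k ⧸ L))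
      map_add' := by intro a b; rw [add_smul, map_add]
      map_smul' := by intro a b; rw [smul_assoc, map_smul, RingHom.id_apply] } (by
      intro g hg
      rw [LinearMap.mem_ker]
      change ψ (g • (u : MvPolynomial (Fin n) k ⧸ L)) = 0
      obtain ⟨y, hy, hyu⟩ := (mem_img _ _ _).1 u.2
      have h1 : g • (Submodule.Quotient.mk y : MvPolynomial (Fin n) k ⧸ L) = 0 := by
        rw [← Submodule.Quotient.mk_smul, Submodule.Quotient.mk_eq_zero]
        exact hCA (Ideal.mul_mem_mul hg hy)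
      rw [← hyu, h1, map_zero])
  map_add' u v := by
    apply LinearMap.ext
    intro x
    obtain ⟨g, rfl⟩ := Submodule.Quotient.mk_surjective _ x
    change ψ (g • ((u + v : img L A) : MvPolynomial (Fin n) k ⧸ L)) =
      ψ (g • (u : MvPolynomial (Fin n) k ⧸ L)) + ψ (g • (v : MvPolynomial (Fin n) k ⧸ L))
    rw [Submodule.coe_add, smul_add, map_add]
  map_smul' a u := by
    apply LinearMap.ext
    intro x
    obtain ⟨g, rfl⟩ := Submodule.Quotient.mk_surjective _ x
    change ψ (g • ((a • u : img L A) : MvPolynomial (Fin n) k ⧸ L)) =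
      a • ψ (g • (u : MvPolynomial (Fin n) k ⧸ L))
    rw [Submodule.coe_smul, smul_comm, map_smul]

theorem pairing_apply (L A C : Ideal (MvPolynomial (Fin n) k)) (hCA : C * A ≤ L)
    (ψ : Module.Dual k (MvPolynomial (Fin n) k ⧸ L)) (u : img L A) (g : MvPolynomial (Fin n) k) :
    pairing L A C hCA ψ u (Submodule.Quotient.mk g) =
      ψ (g • (u : MvPolynomial (Fin n) k ⧸ L)) := rfl

/-- `l(A/L) ≤ dim Soc(A/L) · l(S/C)` if `CA ⊆ L` -/
theorem length_le (L A C : Ideal (MvPolynomial (Fin n) k)) (hCA : C * A ≤ L) (c : ℕ)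
    (hc : irr k n ^ c ≤ L) (d : ℕ) (hd : irr k n ^ d ≤ C) :
    Module.finrank k (img L A) ≤
      Module.finrank k (soc L ⊓ img L A : Submodule k (MvPolynomial (Fin n) k ⧸ L)) *
        Module.finrank k (MvPolynomial (Fin n) k ⧸ C) := by
  have fin1 := finite_quot L c hc
  have fin2 := finite_quot C d hd
  obtain ⟨ψ, hψ⟩ := exists_functionals L A c hc
  let Φ : img L A →ₗ[k] (Fin (Module.finrank k (soc L ⊓ img L A :
      Submodule k (MvPolynomial (Fin n) k ⧸ L))) → Module.Dual k (MvPolynomial (Fin n) k ⧸ C)) :=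
    LinearMap.pi (fun i => pairing L A C hCA (ψ i))
  have hΦ : Function.Injective Φ := by
    rw [injective_iff_map_eq_zero]
    intro u hu
    apply Subtype.ext
    refine hψ u u.2 ?_
    intro g i
    have := LinearMap.congr_fun (congrFun hu i) (Submodule.Quotient.mk g)
    exact this
  have h1 := LinearMap.finrank_le_finrank_of_injective hΦ
  rw [Module.finrank_pi_fintype, Finset.sum_const, Finset.card_univ, Fintype.card_fin,
    Subspace.dual_finrank_eq, smul_eq_mul] at h1
  exact h1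

/-- `l((I ∩ J)/IJ) ≤ t(S/IJ) l(S/(I+J))` -/
theorem type_bound (I J : Ideal (MvPolynomial (Fin n) k)) (c : ℕ) (hc : irr k n ^ c ≤ I * J) :
    Module.finrank k (MvPolynomial (Fin n) k ⧸ (I * J)) +
      Module.finrank k (MvPolynomial (Fin n) k ⧸ (I ⊔ J)) ≤
    Module.finrank k (MvPolynomial (Fin n) k ⧸ I) +
      Module.finrank k (MvPolynomial (Fin n) k ⧸ J) +
      cmType (I * J) * Module.finrank k (MvPolynomial (Fin n) k ⧸ (I ⊔ J)) := by
  have hIJ : I * J ≤ I ⊓ J := Ideal.mul_le_inf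
  have fIJ := finite_quot _ c hc
  have fA : Module.Finite k (MvPolynomial (Fin n) k ⧸ (I ⊓ J)) := finite_quot _ c (hc.trans hIJ)
  have h1 := dq_eq (I * J) (I ⊓ J) hIJ
  have h2 := dq_modular I J
  have h3 := length_le (I * J) (I ⊓ J) (I ⊔ J) (by
    rw [Ideal.sup_mul]
    refine sup_le ?_ ?_
    · exact Ideal.mul_mono_right inf_le_right
    · rw [mul_comm]
      exact Ideal.mul_mono_left inf_le_left) c hc c (hc.trans (hIJ.trans (inf_le_left.trans
        le_sup_left)))
  have h4 : Module.finrank k (soc (I * J) ⊓ img (I * J) (I ⊓ J) :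
      Submodule k (MvPolynomial (Fin n) k ⧸ (I * J))) ≤ cmType (I * J) := by
    rw [cmType_eq]
    exact Submodule.finrank_mono inf_le_left
  have h5 := Nat.mul_le_mul_right (Module.finrank k (MvPolynomial (Fin n) k ⧸ (I ⊔ J))) h4
  omega

end Pool.Agent.H48.CMS
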